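import Mathlib
import Pool.Agent.L0h85.NullX0

set_option autoImplicit false
open Filter


namespace Pool.Agent.L0h85.OffList.NullTransitive

open Topology Pool.Agent.L0h85.NullC

/-- the shift -/
def sh (x : ℕ → ℝ) : ℕ → ℝ := fun i => x (i + 1)

lemma sh_iter (n : ℕ) (x : ℕ → ℝ) (i : ℕ) : (sh^[n] x) i = x (i + n) := by
  induction n generalizing x with
  | zero => simp
  | succ n ih =>
    rw [Function.iterate_succ_apply, ih]
    simp only [sh]
    congr 1

lemma continuous_sh : Continuous sh := by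
  unfold sh
  exact continuous_pi (fun i => continuous_apply (i + 1))

/-- the orbit closure -/
def XX : Set (ℕ → ℝ) := closure (Set.range (fun m => sh^[m] x0))

lemma mapsTo_sh : Set.MapsTo sh XX XX := by
  apply Set.MapsTo.closure _ continuous_sh
  rintro _ ⟨m, rfl⟩
  refine ⟨m + 1, ?_⟩
  simp only
  rw [Function.iterate_succ_apply']

lemma isCompact_XX : IsCompact XX := by
  have h1 : IsCompact (Set.pi Set.univ (fun _ : ℕ => Set.Icc (-1 : ℝ) 1)) :=
    isCompact_univ_pi (fun _ => isCompact_Icc)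
  refine h1.of_isClosed_subset isClosed_closure ?_
  apply closure_minimal _ h1.isClosed
  rintro _ ⟨m, rfl⟩
  intro i _
  simp only [sh_iter]
  unfold x0
  exact ⟨Real.neg_one_le_cos _, Real.cos_le_one _⟩

/-- the shift on the orbit closure -/
def TT : XX → XX := mapsTo_sh.restrict sh XX XX

lemma continuous_TT : Continuous TT := by
  unfold TT
  exact continuous_sh.restrict mapsTo_sh

lemma TT_iter (n : ℕ) (x : XX) : ((TT^[n] x : XX) : ℕ → ℝ) = sh^[n] (x : ℕ → ℝ) := by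
  induction n generalizing x with
  | zero => rfl
  | succ n ih =>
    rw [Function.iterate_succ_apply, ih, Function.iterate_succ_apply]
    rfl

lemma TT_iter_apply (n : ℕ) (x : XX) (i : ℕ) : ((TT^[n] x : XX) : ℕ → ℝ) i = (x : ℕ → ℝ) (i + n) := by
  rw [TT_iter, sh_iter]

/-- the point of the orbit -/
noncomputable def orb (m : ℕ) : XX := ⟨sh^[m] x0, subset_closure ⟨m, rfl⟩⟩

lemma orb_apply (m i : ℕ) : (orb m : ℕ → ℝ) i = x0 (i + m) := by
  unfold orb; simp only; rw [sh_iter]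

lemma dense_orb (U : Set XX) (hU : IsOpen U) (hne : U.Nonempty) : ∃ m, orb m ∈ U := by
  obtain ⟨V, hV, rfl⟩ := isOpen_induced_iff.mp hU
  obtain ⟨x, hx⟩ := hne
  have hx2 : (x : ℕ → ℝ) ∈ closure (Set.range (fun m => sh^[m] x0)) := x.2
  obtain ⟨y, hyV, ⟨m, rfl⟩⟩ := mem_closure_iff.mp hx2 V hV hx
  exact ⟨m, hyV⟩

/-- recurrence of the orbit points -/
lemma tendsto_orb (m : ℕ) : Tendsto (fun k => orb (m + Np k)) atTop (𝓝 (orb m)) := by
  rw [tendsto_subtype_rng, tendsto_pi_nhds]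
  intro i
  rw [tendsto_iff_dist_tendsto_zero]
  have h0 : Tendsto (fun k : ℕ => 2 * √(10 * (1 / 2 : ℝ) ^ k)) atTop (𝓝 0) := by
    have h1 : Tendsto (fun k : ℕ => 10 * (1 / 2 : ℝ) ^ k) atTop (𝓝 (10 * 0)) :=
      (tendsto_pow_atTop_nhds_zero_of_lt_one (by norm_num) (by norm_num)).const_mul _
    rw [mul_zero] at h1
    have h2 := h1.sqrt
    rw [Real.sqrt_zero] at h2
    simpa using h2.const_mul 2
  refine squeeze_zero' (Eventually.of_forall fun _ => dist_nonneg) ?_ h0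
  filter_upwards [eventually_ge_atTop 4] with k hk
  rw [orb_apply, orb_apply, Real.dist_eq]
  have := x0_rigid k (i + m) hk
  rwa [add_assoc] at this

lemma Np_tendsto : Tendsto Np atTop atTop := by
  have h1 : Tendsto (fun k : ℕ => k) atTop atTop := tendsto_id
  refine tendsto_atTop_mono (fun k => ?_) h1
  unfold Np
  have h2 : k < 2 ^ k := Nat.lt_two_pow_self
  have h3 : 2 ^ k ≤ 2 ^ (4 * k ^ 3) := by
    apply Nat.pow_le_pow_right (by norm_num)
    rcases Nat.eq_zero_or_pos k with h | h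
    · subst h; simp
    · nlinarith [Nat.one_le_pow 2 k h]
  omega

lemma transitive_TT (U V : Set XX) (hU : IsOpen U) (hV : IsOpen V) (hUn : U.Nonempty)
    (hVn : V.Nonempty) : ∃ n : ℕ, 1 ≤ n ∧ (V ∩ TT^[n] ⁻¹' U).Nonempty := by
  obtain ⟨m, hm⟩ := dense_orb U hU hUn
  obtain ⟨p, hp⟩ := dense_orb V hV hVn
  have h1 : ∀ᶠ k in atTop, orb (m + Np k) ∈ U := (tendsto_orb m).eventually (hU.mem_nhds hm)
  have h2 : ∀ᶠ k in atTop, p + 1 ≤ Np k := Np_tendsto.eventually_ge_atTop (p + 1)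
  obtain ⟨k, hk1, hk2⟩ := (h1.and h2).exists
  refine ⟨m + Np k - p, by omega, orb p, hp, ?_⟩
  change TT^[m + Np k - p] (orb p) ∈ U
  have : TT^[m + Np k - p] (orb p) = orb (m + Np k) := by
    apply Subtype.ext
    funext i
    rw [TT_iter_apply, orb_apply, orb_apply]
    congr 1; omega
  rw [this]; exact hk1

/-- the constant sequence `-1` -/
lemma neg_one_mem : (fun _ : ℕ => (-1 : ℝ)) ∈ XX := by
  have h : Tendsto (fun k => sh^[Mh (2 * k + 1)] x0) atTop (𝓝 (fun _ : ℕ => (-1 : ℝ))) := by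
    rw [tendsto_pi_nhds]
    intro i
    have := tendsto_x0_const i
    refine this.congr (fun k => ?_)
    rw [sh_iter]; congr 1; omega
  exact mem_closure_of_tendsto h (Eventually.of_forall fun k => ⟨_, rfl⟩)

noncomputable def cst : XX := ⟨fun _ => (-1 : ℝ), neg_one_mem⟩

lemma tendsto_orb_cst : Tendsto (fun k => orb (Mh (2 * k + 1))) atTop (𝓝 cst) := by
  rw [tendsto_subtype_rng, tendsto_pi_nhds]
  intro i
  have := tendsto_x0_const i
  refine this.congr (fun k => ?_)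
  rw [orb_apply]; congr 1; omega

lemma TT_iter_cst (n : ℕ) (i : ℕ) : ((TT^[n] cst : XX) : ℕ → ℝ) i = -1 := by
  rw [TT_iter_apply]; rfl

noncomputable instance metricXX : MetricSpace XX :=
  letI : MetricSpace (ℕ → ℝ) := PiCountable.metricSpace
  Subtype.metricSpace

lemma dist_XX (x y : XX) : dist x y =
    ∑' i : ℕ, min (2⁻¹ ^ i) (dist ((x : ℕ → ℝ) i) ((y : ℕ → ℝ) i)) :=
  PiCountable.dist_eq_tsum (F := fun _ : ℕ => ℝ) _ _

lemma dist_lt_of_coords (ε : ℝ) (hε : 0 < ε) : ∃ J : ℕ, 0 < J ∧ ∃ η : ℝ, 0 < η ∧ ∀ x y : XX,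
    (∀ j < J, |(x : ℕ → ℝ) j - (y : ℕ → ℝ) j| ≤ η) → dist x y < ε := by
  obtain ⟨J0, hJ0⟩ := exists_pow_lt_of_lt_one (show 0 < ε / 4 by positivity)
    (show (1 / 2 : ℝ) < 1 by norm_num)
  refine ⟨J0 + 1, Nat.succ_pos _, ε / (4 * (J0 + 1)), by positivity, fun x y h => ?_⟩
  rw [dist_XX]
  have hs : Summable (fun i : ℕ => min ((2 : ℝ)⁻¹ ^ i) (dist ((x : ℕ → ℝ) i) ((y : ℕ → ℝ) i))) := by
    refine Summable.of_nonneg_of_le (fun i => le_min (by positivity) dist_nonneg)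
      (fun i => min_le_left _ _) ?_
    exact summable_geometric_of_lt_one (by norm_num) (by norm_num)
  rw [← hs.sum_add_tsum_nat_add (J0 + 1)]
  have h1 : ∑ i ∈ Finset.range (J0 + 1), min ((2 : ℝ)⁻¹ ^ i) (dist ((x : ℕ → ℝ) i) ((y : ℕ → ℝ) i))
      ≤ ∑ i ∈ Finset.range (J0 + 1), ε / (4 * (J0 + 1)) := by
    apply Finset.sum_le_sum
    intro i hi
    rw [Finset.mem_range] at hi
    exact (min_le_right _ _).trans (by rw [Real.dist_eq]; exact h i hi)
  have h2 : ∑ i ∈ Finset.range (J0 + 1), ε / (4 * (J0 + 1)) = ε / 4 := by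
    rw [Finset.sum_const, Finset.card_range, nsmul_eq_mul]
    push_cast
    field_simp
  have hs3 : Summable (fun i : ℕ => ((1 / 2 : ℝ) ^ (J0 + 1)) * ((1 : ℝ) / 2) ^ i) :=
    (summable_geometric_two).mul_left _
  have h3 : ∑' i : ℕ, min ((2 : ℝ)⁻¹ ^ (i + (J0 + 1)))
      (dist ((x : ℕ → ℝ) (i + (J0 + 1))) ((y : ℕ → ℝ) (i + (J0 + 1))))
      ≤ ∑' i : ℕ, ((1 / 2 : ℝ) ^ (J0 + 1)) * ((1 : ℝ) / 2) ^ i := by
    apply Summable.tsum_le_tsum _ ((summable_nat_add_iff (J0 + 1)).mpr hs) hs3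
    intro i
    refine (min_le_left _ _).trans (le_of_eq ?_)
    rw [pow_add]; norm_num; ring
  rw [tsum_mul_left, tsum_geometric_two] at h3
  have h4 : (1 / 2 : ℝ) ^ (J0 + 1) * 2 = (1 / 2) ^ J0 := by rw [pow_succ]; ring
  linarith

lemma null_TT (a : ℕ → ℕ) (ε : ℝ) (hε : 0 < ε) (δ : ℝ) (hδ : 0 < δ) :
    ∀ᶠ n in atTop, ∀ F : Finset XX,
      (∀ x ∈ F, ∀ y ∈ F, x ≠ y → ∃ i < n, ε ≤ dist (TT^[a i] x) (TT^[a i] y)) →
      (F.card : ℝ) ≤ Real.exp (δ * n) := by
  classical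
  obtain ⟨J, hJ, η, hη, hdist⟩ := dist_lt_of_coords ε hε
  set g : ℝ := min (1 / 6) (η / 20) with hg
  have hg0 : 0 < g := by rw [hg]; positivity
  have hg6 : g ≤ 1 / 6 := min_le_left _ _
  have hgη : 20 * g ≤ η := by
    have : g ≤ η / 20 := min_le_right _ _
    linarith
  obtain ⟨T, K, hcov⟩ := cover (E := lp (fun _ : ℕ => ℂ) 2) g hg0 hg6
  -- polynomial growth is beaten
  have hgrow : ∀ᶠ n : ℕ in atTop,
      2 * (((n : ℝ) * J) * (((n : ℝ) * J) * (T * (((n : ℝ) * J) * 3) ^ K))) ≤ Real.exp (δ * n) := by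
    have h1 := tendsto_pow_const_div_const_pow_of_one_lt (K + 2) (r := Real.exp δ)
      (Real.one_lt_exp_iff.mpr hδ)
    have h2 := h1.const_mul (2 * (J : ℝ) * J * T * (J * 3) ^ K)
    rw [mul_zero] at h2
    filter_upwards [h2.eventually_le_const (show (0 : ℝ) < 1 by norm_num)] with n hn
    have h3 : (0 : ℝ) < Real.exp δ ^ n := by positivity
    have h4 : 2 * (J : ℝ) * J * T * (J * 3) ^ K * ((n : ℝ) ^ (K + 2) / Real.exp δ ^ n)
        = (2 * (J : ℝ) * J * T * (J * 3) ^ K * (n : ℝ) ^ (K + 2)) / Real.exp δ ^ n := by ring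
    rw [h4, div_le_one h3] at hn
    have h5 : Real.exp δ ^ n = Real.exp (δ * n) := by
      rw [← Real.exp_nat_mul]; congr 1; ring
    rw [h5] at hn
    refine le_trans (le_of_eq ?_) hn
    rw [mul_pow, mul_pow, mul_pow, pow_add]
    ring
  filter_upwards [hgrow, eventually_ge_atTop 1] with n hn hn1 F hF
  have : Nonempty (Fin n × Fin J) := ⟨(⟨0, hn1⟩, ⟨0, hJ⟩)⟩
  obtain ⟨z, hz⟩ := hcov (Fin n × Fin J) (fun p => coc (-(((a p.1 + p.2 : ℕ)) : ℤ)))
  -- every point of the orbit closure has a code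
  have hcode : ∀ x : XX, ∃ w : Code (Fin n × Fin J) T K, ∀ p : Fin n × Fin J,
      |(x : ℕ → ℝ) (a p.1 + p.2) - z w p| ≤ 10 * g := by
    intro x
    have hcl : IsClosed {x : ℕ → ℝ | ∃ w : Code (Fin n × Fin J) T K, ∀ p : Fin n × Fin J,
        |x (a p.1 + p.2) - z w p| ≤ 10 * g} := by
      have : {x : ℕ → ℝ | ∃ w : Code (Fin n × Fin J) T K, ∀ p : Fin n × Fin J,
        |x (a p.1 + p.2) - z w p| ≤ 10 * g} = ⋃ w : Code (Fin n × Fin J) T K,
          {x : ℕ → ℝ | ∀ p : Fin n × Fin J, |x (a p.1 + p.2) - z w p| ≤ 10 * g} := by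
        ext x; simp
      rw [this]
      apply isClosed_iUnion_of_finite
      intro w
      simp only [Set.ofPred_forall]
      apply isClosed_iInter
      intro p
      apply isClosed_le _ continuous_const
      exact ((continuous_apply (a p.1 + p.2)).sub continuous_const).abs
    have hsub : XX ⊆ {x : ℕ → ℝ | ∃ w : Code (Fin n × Fin J) T K, ∀ p : Fin n × Fin J,
        |x (a p.1 + p.2) - z w p| ≤ 10 * g} := by
      apply closure_minimal _ hcl
      rintro _ ⟨m, rfl⟩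
      obtain ⟨w, hw⟩ := hz (coc (m : ℤ))
      refine ⟨w, fun p => ?_⟩
      have h1 := hw p
      rw [norm_coc_sub] at h1
      simp only
      rw [sh_iter]
      unfold x0
      rw [norm_coc]
      have e : (((a p.1 + p.2 + m : ℕ)) : ℤ) = (m : ℤ) + ((a p.1 + p.2 : ℕ) : ℤ) := by
        push_cast; ring
      rw [e]
      exact h1
    exact hsub x.2
  choose w hw using hcode
  have hinj : Set.InjOn w (F : Set XX) := by
    intro x hx y hy hxy
    by_contra hne
    obtain ⟨i, hi, hd⟩ := hF x hx y hy hne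
    refine absurd hd (not_le.mpr ?_)
    apply hdist
    intro j hj
    rw [TT_iter_apply, TT_iter_apply]
    have h1 := hw x (⟨i, hi⟩, ⟨j, hj⟩)
    have h2 := hw y (⟨i, hi⟩, ⟨j, hj⟩)
    rw [← hxy] at h2
    simp only at h1 h2
    have e : j + a i = a i + j := by ring
    rw [e]
    rw [abs_le] at h1 h2 ⊢
    constructor <;> linarith
  have hcard : F.card ≤ Fintype.card (Code (Fin n × Fin J) T K) := by
    rw [← Finset.card_image_of_injOn hinj]
    exact Finset.card_le_univ _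
  have hcc : (Fintype.card (Code (Fin n × Fin J) T K) : ℝ)
      = 2 * (((n : ℝ) * J) * (((n : ℝ) * J) * (T * (((n : ℝ) * J) * 3) ^ K))) := by
    simp [Code, Fintype.card_prod]
  calc (F.card : ℝ) ≤ (Fintype.card (Code (Fin n × Fin J) T K) : ℝ) := by exact_mod_cast hcard
    _ ≤ _ := by rw [hcc]; exact hn

lemma dist_ge (x y : XX) (h : 1 ≤ dist ((x : ℕ → ℝ) 0) ((y : ℕ → ℝ) 0)) : 1 ≤ dist x y := by
  have h1 := PiCountable.min_dist_le_dist_pi (F := fun _ : ℕ => ℝ) (x : ℕ → ℝ) (y : ℕ → ℝ) 0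
  have h2 : min ((2 : ℝ)⁻¹ ^ (Encodable.encode (0 : ℕ))) (dist ((x : ℕ → ℝ) 0) ((y : ℕ → ℝ) 0)) = 1 := by
    simp [min_eq_left h]
  rw [h2] at h1
  exact h1

lemma avg_large (m k : ℕ) (hk : 2 ≤ k) (hm : 4 * m ≤ Np (2 * k)) :
    (1 / 4 : ℝ) ≤ (∑ i ∈ Finset.range (Np (2 * k)), dist (TT^[i] (orb m)) (TT^[i] cst))
      / ((Np (2 * k) : ℕ) : ℝ) := by
  obtain ⟨q, hq⟩ := two_dvd_Np (L := 2 * k) (by omega)
  have hN := Np_pos (2 * k)
  rw [le_div_iff₀ (by exact_mod_cast hN)]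
  have hsub : Finset.Ico q (3 * q - m) ⊆ Finset.range (Np (2 * k)) := by
    intro i hi
    rw [Finset.mem_Ico] at hi
    rw [Finset.mem_range]
    omega
  calc (1 / 4 : ℝ) * (Np (2 * k) : ℝ) = (q : ℝ) := by rw [hq]; push_cast; ring
    _ ≤ ((3 * q - m - q : ℕ) : ℝ) := by
        have : q ≤ 3 * q - m - q := by omega
        exact_mod_cast this
    _ = ∑ i ∈ Finset.Ico q (3 * q - m), (1 : ℝ) := by simp
    _ ≤ ∑ i ∈ Finset.Ico q (3 * q - m), dist (TT^[i] (orb m)) (TT^[i] cst) := by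
        apply Finset.sum_le_sum
        intro i hi
        rw [Finset.mem_Ico] at hi
        apply dist_ge
        rw [TT_iter_apply, TT_iter_cst, orb_apply, Real.dist_eq]
        have h1 : 0 ≤ x0 (0 + i + m) := by
          apply x0_nonneg k _ hk
          · omega
          · omega
        rw [abs_of_nonneg (by linarith)]
        linarith
    _ ≤ ∑ i ∈ Finset.range (Np (2 * k)), dist (TT^[i] (orb m)) (TT^[i] cst) :=
        Finset.sum_le_sum_of_subset_of_nonneg hsub (fun _ _ _ => dist_nonneg)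

/-- The negation of the preceding statement: Every continuous self-map of a compact metric space that is topologically transitive and has zero sequence entropy along every increasing sequence is mean equicontinuous: nearby points have uniformly small limsup of average orbit distance. -/
theorem null_transitive_not_mean_equicontinuous :
    ¬ (∀ (X : Type) [MetricSpace X] [CompactSpace X] (T : X → X), Continuous T →
      (∀ U V : Set X, IsOpen U → IsOpen V → U.Nonempty → V.Nonempty →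
        ∃ n : ℕ, 1 ≤ n ∧ (V ∩ T^[n] ⁻¹' U).Nonempty) →
      (∀ a : ℕ → ℕ, StrictMono a → ∀ ε : ℝ, 0 < ε → ∀ δ : ℝ, 0 < δ →
        ∀ᶠ n in atTop, ∀ F : Finset X,
          (∀ x ∈ F, ∀ y ∈ F, x ≠ y → ∃ i < n, ε ≤ dist (T^[a i] x) (T^[a i] y)) →
          (F.card : ℝ) ≤ Real.exp (δ * n)) →
      ∀ ε : ℝ, 0 < ε → ∃ δ : ℝ, 0 < δ ∧ ∀ x y : X, dist x y < δ →
        ∀ᶠ n in atTop,
          (∑ i ∈ Finset.range n, dist (T^[i] x) (T^[i] y)) / (n : ℝ) < ε) := by
  intro H
  have hc : CompactSpace XX := isCompact_iff_compactSpace.mp isCompact_XX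
  have h := @H XX metricXX hc TT continuous_TT
    (fun U V hU hV hUn hVn => transitive_TT U V hU hV hUn hVn)
    (fun a _ ε hε δ hδ => null_TT a ε hε δ hδ) (1 / 4) (by norm_num)
  obtain ⟨δ, hδ, h⟩ := h
  -- an orbit point close to the constant
  have h1 : ∀ᶠ k in atTop, dist (orb (Mh (2 * k + 1))) cst < δ :=
    (Metric.tendsto_nhds.mp tendsto_orb_cst) δ hδ
  obtain ⟨k0, hk0⟩ := h1.exists
  have h2 := h _ _ hk0
  have h3 : Tendsto (fun k : ℕ => Np (2 * k)) atTop atTop :=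
    Np_tendsto.comp (tendsto_id.const_mul_atTop' (by norm_num : (0:ℕ) < 2))
  have h4 := h3.eventually h2
  have h5 := h3.eventually_ge_atTop (4 * Mh (2 * k0 + 1))
  obtain ⟨k, ⟨hk4, hk5⟩, hk6⟩ := ((h4.and h5).and (eventually_ge_atTop 2)).exists
  have h6 := avg_large (Mh (2 * k0 + 1)) k hk6 hk5
  linarith

end Pool.Agent.L0h85.OffList.NullTransitive
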